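import Pool.Agent.helper9.HX.Spec

/-! Row CB of project hx (MP_d9e35a_co) -/

set_option autoImplicit false

open scoped Classical

namespace Pool.Agent.helper9.HX

open Finset
open Pool.Agent.helper65.HC (V IsEig IsTop lam)
open Pool.Agent.helper9.HQ (Fam Dn E N Le hi c)
open Pool.Agent.helper9

theorem CB (hHB : HB_stmt) (hCNA : CNA_stmt) (hCNS : CNS_stmt) (hEQ1 : EQ1_stmt) (hHVA : HVA_stmt)
    (hHVB : HVB_stmt) (hBASE : BASE_stmt) (hDOMB : DOMB_stmt) (hCBN : CBN_stmt) : CB_stmt := by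
  obtain ⟨m₁, h1⟩ := hHVA
  obtain ⟨m₂, h2⟩ := hCBN 12600 (by norm_num)
  refine ⟨max m₁ (max m₂ 2), ?_⟩
  intro m hm d U l f hS hle
  have hm1 : m₁ ≤ m := (le_max_left _ _).trans hm
  have hm2 : m₂ ≤ m := ((le_max_left _ _).trans (le_max_right _ _)).trans hm
  have hm3 : 2 ≤ m := ((le_max_right _ _).trans (le_max_right _ _)).trans hm
  have hm0 : (0 : ℝ) < m := by exact_mod_cast (by omega : 0 < m)
  have hP := hS.pf
  obtain ⟨c1, c2⟩ := hCNA d U hP.em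
  rw [hS.card] at c1
  have hnu : 1 ≤ nu U := by
    by_contra hc
    have hnu0 : nu U = 0 := by omega
    have hU : ∀ x ∈ U, x = ∅ := by
      intro x hx
      by_contra hne
      obtain ⟨i, hi⟩ := nonempty_iff_ne_empty.2 hne
      have h3 : ({i} : Finset (Fin d)) ∈ U := hP.dn x hx {i} (singleton_subset_iff.2 hi)
      have h4 : ({i} : Finset (Fin d)) ∈ U.filter (fun x => x.card = 1) :=
        mem_filter.2 ⟨h3, card_singleton i⟩
      have h5 : (U.filter fun x => x.card = 1) = ∅ := card_eq_zero.1 hnu0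
      rw [h5] at h4
      exact notMem_empty _ h4
    have h6 : U.card ≤ 1 := card_le_one.2 (fun x hx y hy => (hU x hx).trans (hU y hy).symm)
    rw [hS.card] at h6
    omega
  obtain ⟨o, o1, o2, o3, o4⟩ := hCNS d U hP.dn hP.em hnu
  rw [hS.card] at o4
  have a1 := h1 m hm1 d U l f o hS o4
  obtain ⟨b1, b2⟩ := hHVB d m U l f o hS (by omega) a1
  obtain ⟨φ, hφ⟩ : ∃ φ : ℝ, φ = √(1152 / m) := ⟨_, rfl⟩
  have hφ0 : 0 ≤ φ := hφ ▸ Real.sqrt_nonneg _
  have hφ2 : m * φ ^ 2 = 1152 := by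
    rw [hφ, Real.sq_sqrt (by positivity)]
    field_simp
  have hfφ : ∀ x ∈ U, x.card = 2 → f x ≤ φ := by
    intro x hx hx2
    rw [hφ]
    apply Real.le_sqrt_of_sq_le
    rw [le_div_iff₀ hm0]
    linarith [b1 x hx hx2]
  obtain ⟨ψ, hψ⟩ : ∃ ψ : ℝ, ψ = 12600 / m := ⟨_, rfl⟩
  have hψ0 : 0 ≤ ψ := by rw [hψ]; positivity
  have hψm : m * ψ = 12600 := by
    rw [hψ]
    field_simp
  have hfψ : ∀ x ∈ U.filter (fun x => x.card = 2 ∧ o ∉ x), f x ≤ ψ := by
    intro x hx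
    rw [mem_filter] at hx
    rw [hψ, le_div_iff₀ hm0]
    linarith [b2 x hx.1 hx.2.1 hx.2.2]
  have k1 := hHB d m U l f φ hS (by omega) hfφ hφ0
  obtain ⟨w1, w0, v1, v0, d1, d2, d3, d4, d5, d6, d7, d8⟩ := hDOMB d U f o φ hP.dn o1 hP.nn hφ0 hfφ
  have k2 := hBASE d U l f hP
  obtain ⟨-, -, -, -, -, k3⟩ := hEQ1 d U l f hP
  rw [hS.card] at k3
  have hN0 : 0 ≤ N (hi U) f := by
    unfold N
    exact sum_nonneg (fun x _ => sq_nonneg _)
  have hw0 : 0 ≤ w0 := by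
    rw [d3]
    exact sum_nonneg (fun x _ => hP.nn x)
  have hv0 : 0 ≤ v0 := by
    rw [d4]
    exact sum_nonneg (fun x _ => sq_nonneg _)
  have hv0w : v0 ≤ ψ * w0 := by
    rw [d3, d4, mul_sum]
    apply sum_le_sum
    intro x hx
    rw [pow_two]
    exact mul_le_mul_of_nonneg_right (hfψ x hx) (hP.nn x)
  have hw0e : w0 ≤ ((ee U : ℝ) - dg o U) * ψ := by
    rw [d3]
    refine (sum_le_card_nsmul _ _ ψ hfψ).trans (le_of_eq ?_)
    rw [nsmul_eq_mul]
    congr 1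
    have : (((U.filter (fun x => x.card = 2 ∧ o ∉ x)).card : ℝ)) + dg o U = ee U := by exact_mod_cast d7
    linarith
  have hT0 : (0 : ℝ) ≤ (hi U).card := Nat.cast_nonneg _
  have k1' : m * N (hi U) f ≤ 12600 * φ ^ 2 * (hi U).card := by
    refine k1.trans ?_
    apply mul_le_mul_of_nonneg_right _ hT0
    nlinarith [sq_nonneg φ]
  have key := h2 m (nu U) (ee U) (hi U).card (dg o U) (l ^ 2) (N (hi U) f) w1 w0 v1 v0 φ ψ hm2 c1 hle o2 o3
    d1 hw0 d2 hv0 hN0 hφ0 hψ0 k3 d6 hv0w hw0e (by rw [hφ2]; norm_num) hψm.le k1' (by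
      rw [← d5]
      linarith)
  exact key.trans (le_max_right _ _)

end Pool.Agent.helper9.HX
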